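import Pool.Agent.U93.T.Few

/-!
# The rank part of the Birch–Swinnerton-Dyer conjecture over intermediate fields: a few fields suffice

Let `E` be an elliptic curve over a number field `K` and `F/K` a finite Galois extension whose group `G`
is isomorphic to `A_n` or `S_n`, `n ≥ 12`: `ι` is an injective homomorphism from `G` to `S_n` whose
image contains `A_n`. For totally real and for CM fields `K` there are `F` over which `E` is modular
(Taylor; Allen, Calegari, Caraiani, Gee, Helm, Le Hung, Newton, Scholze, Taylor, Thorne); then by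
solvable descent (Langlands, Arthur–Clozel) the L-functions `L(E/F^U ⊗ ψ, s)` are entire for all
SOLVABLE subgroups `U` of `G` and all linear characters `ψ` of `U`.

By the Artin formalism, the rank part of the conjecture over the fixed fields of ALL cyclic subgroups
of a subgroup `M` implies it over the fixed field of `M`. Here it is assumed only over `F` and over the
fixed field of one element of order three (a 3-cycle), both of which have only finitely many zeros to
control, and it follows over the fixed fields of all even subgroups `M` none of whose elements has a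
cycle of prime length `l > (n - 4) / 2` or of length `2 ^ j > n - 4`; with one transposition and one
4-cycle more it follows for all subgroups `M` of this kind (for example for all groups whose orbits have
length at most `(n - 4) / 2`, and by a theorem of Jordan for almost all primitive groups). The condition
is that the order of `L(E/F, s)` at `s = 1` and the rank of `E(F)` are less than
`C(⌊n / q⌋, 2) (q - 1) ^ 2` for some `q = 2 ^ a ≥ 4` (for `q` about `√n` this is
`(1 - o(1)) n ^ 2 / 2`).

The proof is based on the structure theorem for class functions `Θ` on `G` with nonnegative integral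
multiplicities at the linear characters of the SOLVABLE subgroups and with a value `Θ(1)` in this range
(`Pool.Agent.U93.S`, `Pool.Agent.U93.Q`, `Pool.Agent.U93.T`):
`Θ(g) = a + b ε(g) + (c + d ε(g)) fix(g) + ∑_C δ(|C|, ε(g) ε(C))`, where `C` runs through the cycles of
`g` of exceptional length, `ε` is the sign and `fix` the number of fixed points. It is applied to the
orders at `s = 1` and to the character of `G` on `E(F)`; the means of `1, ε, fix, ε fix` over the
trivial group and the groups generated by a transposition, a 3-cycle and a 4-cycle are linearly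
independent.
-/

set_option autoImplicit false
open NumberField
open Classical

namespace Pool.Agent.Results.MP_cd906c_nt.FewFieldsSuffice

open IsDedekindDomain
open Pool.Agent.H541R3.ART (Irr)
open Pool.Agent.R389 (ind IsDecomp)
open Pool.Agent.U93.Q (Exc)

/-- `M v` is, for every `v`, an integral model of `E` with discriminant minimal at `v`. -/
def MinimalModels {K : Type} [Field K] [NumberField K] (E : WeierstrassCurve K)
    (M : HeightOneSpectrum (𝓞 K) → WeierstrassCurve (𝓞 K)) : Prop :=
  ∀ v : HeightOneSpectrum (𝓞 K),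
    (∃ C : WeierstrassCurve.VariableChange K, C • E = (M v).map (algebraMap (𝓞 K) K)) ∧
    ∀ W : WeierstrassCurve (𝓞 K),
      (∃ C : WeierstrassCurve.VariableChange K, C • E = W.map (algebraMap (𝓞 K) K)) →
        ∀ n : ℕ, (M v).Δ ∈ v.asIdeal ^ n → W.Δ ∈ v.asIdeal ^ n

/-- The Euler product of the Hasse–Weil L-function, computed from the reductions of the models `M v`. -/
noncomputable def LSeries {K : Type} [Field K] [NumberField K]
    (M : HeightOneSpectrum (𝓞 K) → WeierstrassCurve (𝓞 K)) (s : ℂ) : ℂ :=
  ∏' v : HeightOneSpectrum (𝓞 K),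
    (1 - ((((Ideal.absNorm v.asIdeal : ℕ) : ℤ) -
          ((Nat.card {p : (𝓞 K ⧸ v.asIdeal) × (𝓞 K ⧸ v.asIdeal) //
            p.2 ^ 2 + Ideal.Quotient.mk v.asIdeal (M v).a₁ * p.1 * p.2
              + Ideal.Quotient.mk v.asIdeal (M v).a₃ * p.2
            = p.1 ^ 3 + Ideal.Quotient.mk v.asIdeal (M v).a₂ * p.1 ^ 2
              + Ideal.Quotient.mk v.asIdeal (M v).a₄ * p.1
              + Ideal.Quotient.mk v.asIdeal (M v).a₆} : ℕ) : ℤ) : ℤ) : ℂ)
          * ((Ideal.absNorm v.asIdeal : ℕ) : ℂ) ^ (-s)
      + (if (M v).Δ ∈ v.asIdeal then (0 : ℂ) else 1)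
          * ((Ideal.absNorm v.asIdeal : ℕ) : ℂ) ^ (1 - 2 * s))⁻¹

/-- The formal properties of the L-functions `L(E/K, χ, s)`, `χ` an irreducible complex character of the
Galois group `G` of `F/K`: they are analytic for `Re s > 3/2`, have a meromorphic continuation to the plane
and do not vanish identically, and for every subgroup `U` of `G` the product of the
`L(E/K, χ, s) ^ ⟨χ|_U, 1⟩` is, for `Re s > 3/2`, the Euler product of the Hasse–Weil L-function of `E` over
the fixed field of `U`. -/
structure TwistFamily (K : Type) [Field K] [NumberField K] (E : WeierstrassCurve K)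
    (F : Type) [Field F] [NumberField F] [Algebra K F] where
  /-- the function `L(E/K, χ, s)` -/
  L : ((F ≃ₐ[K] F) → ℂ) → ℂ → ℂ
  analytic : ∀ χ ∈ Irr (F ≃ₐ[K] F), ∀ s : ℂ, (3 / 2 : ℝ) < s.re → AnalyticAt ℂ (L χ) s
  mero : ∀ χ ∈ Irr (F ≃ₐ[K] F), ∀ s : ℂ, MeromorphicAt (L χ) s ∧ meromorphicOrderAt (L χ) s ≠ ⊤
  euler : ∀ (U : Subgroup (F ≃ₐ[K] F)) (m : ((F ≃ₐ[K] F) → ℂ) → ℕ),
    IsDecomp (ind U (fun _ => 1)) m →
    ∀ M : HeightOneSpectrum (𝓞 (IntermediateField.fixedField U)) →
        WeierstrassCurve (𝓞 (IntermediateField.fixedField U)),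
      MinimalModels (E.map (algebraMap K (IntermediateField.fixedField U))) M →
        ∀ s : ℂ, (3 / 2 : ℝ) < s.re → ∏ᶠ χ ∈ Irr (F ≃ₐ[K] F), L χ s ^ m χ = LSeries M s

/-- The order at `s = 1` of `L(E/K, τ, s)` for a representation `τ` of `G` in which `χ` occurs with the
multiplicity `m χ`, the product of the `L(E/K, χ, s) ^ m χ`. For the multiplicities of the character
induced from a linear character `ψ` of a subgroup `U` this is the order at `s = 1` of `L(E/F^U ⊗ ψ, s)`. -/
noncomputable def TwistFamily.order {K : Type} [Field K] [NumberField K] {E : WeierstrassCurve K}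
    {F : Type} [Field F] [NumberField F] [Algebra K F] (T : TwistFamily K E F)
    (m : ((F ≃ₐ[K] F) → ℂ) → ℕ) : WithTop ℤ :=
  meromorphicOrderAt (fun z => ∏ᶠ χ ∈ Irr (F ≃ₐ[K] F), T.L χ z ^ m χ) 1

/-- The rank of the group `E(L)` of points of `E` over the extension `L` of `K`. -/
noncomputable def rank {K : Type} [Field K] (E : WeierstrassCurve K) (L : Type) [Field L]
    [Algebra K L] : ℕ :=
  Module.finrank ℤ (E.baseChange L).toAffine.Point

/-- The rank part of the Birch–Swinnerton-Dyer conjecture for `E` over the fixed field of `U`: the order at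
`s = 1` of the L-function of `E` over this field, which is the product of the `L(E/K, χ, s) ^ ⟨χ|_U, 1⟩`, is the
rank of the group of points. -/
def TwistFamily.RankPart {K : Type} [Field K] [NumberField K] {E : WeierstrassCurve K}
    {F : Type} [Field F] [NumberField F] [Algebra K F] (T : TwistFamily K E F)
    (U : Subgroup (F ≃ₐ[K] F)) : Prop :=
  ∀ m : ((F ≃ₐ[K] F) → ℂ) → ℕ, IsDecomp (ind U (fun _ => 1)) m →
    T.order m = ((rank E (IntermediateField.fixedField U) : ℤ) : WithTop ℤ)

/-- No element of `M` has a cycle of exceptional length: a prime `l` with `n < 2 l + 4` or a power of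
two `l` with `n < l + 4`. -/
def Free {G : Type} [Group G] {n : ℕ} (ι : G →* Equiv.Perm (Fin n)) (M : Subgroup G) : Prop :=
  ∀ h ∈ M, ∀ l ∈ (ι h).cycleType, ¬ Exc n l

end Pool.Agent.Results.MP_cd906c_nt.FewFieldsSuffice

open Pool.Agent.H541R3.ART (Irr)
open Pool.Agent.R389 (ind IsDecomp)
open Pool.Agent.Results.MP_cd906c_nt.FewFieldsSuffice

/-- **Two or four fields suffice for the rank conjecture.** Let `E` be an elliptic curve over the number
field `K`, `F/K` a finite Galois extension whose group `G` is isomorphic to `A_n` or `S_n`, `n ≥ 12`, `T` a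
family of functions with the formal properties of the L-functions `L(E/K, χ, s)`. Suppose that `E(F)` is
finitely generated (Mordell–Weil), that `L(E/F^U ⊗ ψ, s)` has no pole at `s = 1` for the linear characters
`ψ` of the SOLVABLE subgroups `U` of `G`, and that the order of `L(E/F, s)` at `s = 1` and the rank of
`E(F)` are at most `r`, where `r < C(⌊n / q⌋, 2) (q - 1) ^ 2` for some `q = 2 ^ a ≥ 4`. Suppose that the
rank conjecture holds over `F` and over `F^⟨g₃⟩`, where `g₃` is an element of `G` which corresponds to a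
3-cycle.

(1) The rank conjecture holds over `F^M` for all subgroups `M` of `G` which correspond to groups of even
permutations none of which has a cycle of exceptional length.

(2) If it holds also over `F^⟨g₂⟩` and `F^⟨g₄⟩`, where `g₂` corresponds to a transposition and `g₄` to a
4-cycle, then it holds over `F^M` for all subgroups `M` of `G` which correspond to groups of permutations
none of which has a cycle of exceptional length. -/
theorem Pool.Agent.Results.MP_cd906c_nt.FewFieldsSuffice.result
    (K : Type) [Field K] [NumberField K] (E : WeierstrassCurve K) (_hE : E.IsElliptic)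
    (F : Type) [Field F] [NumberField F] [Algebra K F] [IsGalois K F] (T : TwistFamily K E F)
    (hMW : Module.Finite ℤ (E.baseChange F).toAffine.Point)
    (hsol : ∀ U : Subgroup (F ≃ₐ[K] F), Group.IsSolvable U → ∀ (ψ : U →* ℂˣ)
      (m : ((F ≃ₐ[K] F) → ℂ) → ℕ), IsDecomp (ind U (fun x => ((ψ x : ℂˣ) : ℂ))) m →
        0 ≤ T.order m)
    (r : ℕ) (hr : ∀ m : ((F ≃ₐ[K] F) → ℂ) → ℕ,
      IsDecomp (ind (⊥ : Subgroup (F ≃ₐ[K] F)) (fun _ => 1)) m → T.order m ≤ (r : WithTop ℤ))
    (hr' : rank E F ≤ r)
    (n : ℕ) (ι : (F ≃ₐ[K] F) →* Equiv.Perm (Fin n)) (hι : Function.Injective ι)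
    (hA : alternatingGroup (Fin n) ≤ ι.range) (hn : 12 ≤ n)
    (a : ℕ) (ha : 2 ≤ a) (hrn : r < (n / 2 ^ a).choose 2 * (2 ^ a - 1) ^ 2)
    (h1 : T.RankPart ⊥) (g₃ : F ≃ₐ[K] F) (hg₃ : (ι g₃).cycleType = {3})
    (h3 : T.RankPart (Subgroup.zpowers g₃)) :
    (∀ M : Subgroup (F ≃ₐ[K] F), Free ι M → (∀ h ∈ M, Equiv.Perm.sign (ι h) = 1) →
      T.RankPart M) ∧
    (∀ g₂ g₄ : F ≃ₐ[K] F, (ι g₂).cycleType = {2} → (ι g₄).cycleType = {4} →
      T.RankPart (Subgroup.zpowers g₂) → T.RankPart (Subgroup.zpowers g₄) →
        ∀ M : Subgroup (F ≃ₐ[K] F), Free ι M → T.RankPart M) := by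
  have hG : Finite (F ≃ₐ[K] F) := inferInstance
  have hL : ∀ χ ∈ Irr (F ≃ₐ[K] F),
      MeromorphicAt (T.L χ) 1 ∧ meromorphicOrderAt (T.L χ) 1 ≠ ⊤ := fun χ hχ => T.mero χ hχ 1
  let ρ := Pool.Agent.U143.EQ.galPoints E F
  have hrk : ∀ U : Subgroup (F ≃ₐ[K] F), Module.finrank ℤ (Pool.Agent.U143.EQ.fixed ρ U)
      = rank E (IntermediateField.fixedField U) := fun U => Pool.Agent.U143.EQ.finrank_fixed' E F U
  have hiff : ∀ U : Subgroup (F ≃ₐ[K] F), T.RankPart U ↔
      Pool.Agent.U93.T.mean U (Pool.Agent.H541R3.ART.theta (Pool.Agent.R389.ords T.L 1))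
        = Pool.Agent.U93.T.mean U
          (fun g => (((Pool.Agent.U143.EQ.bc ℚ ρ).character g : ℚ) : ℂ)) := by
    intro U
    rw [← Pool.Agent.U93.T.part_iff hL ρ U, hrk U]
    rfl
  have hsm := Pool.Agent.U93.S.small_two hn ha hrn
  have hθ := Pool.Agent.U93.T.shape_ords hL hsol r hr hι hA hsm hn
  have hbot : Module.finrank ℤ (Pool.Agent.U143.EQ.fixed ρ (⊥ : Subgroup (F ≃ₐ[K] F))) ≤ r :=
    (Submodule.finrank_le _).trans hr'
  have hη := Pool.Agent.U93.T.shape_char ρ r hbot hι hA hsm hn
  have hfree : ∀ {M : Subgroup (F ≃ₐ[K] F)}, Free ι M →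
      Pool.Agent.U93.T.VanI n ι M (fun _ => 1) :=
    fun hM => Pool.Agent.U93.T.vanI_of_free ι _ hM
  constructor
  · intro M hM hev
    rw [hiff M]
    refine Pool.Agent.U93.T.two_means hι hn hθ hη hg₃ ((hiff _).mp h1) ((hiff _).mp h3)
      (hfree hM) fun h hh => ?_
    unfold Pool.Agent.U93.Q.sn
    rw [hev h hh]
    norm_num
  · intro g₂ g₄ hg₂ hg₄ h2 h4 M hM
    rw [hiff M]
    exact Pool.Agent.U93.T.four_means hι hn hθ hη hg₂ hg₃ hg₄ ((hiff _).mp h1) ((hiff _).mp h2)
      ((hiff _).mp h3) ((hiff _).mp h4) (hfree hM)
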