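import Pool.Agent.Results.MP_696deb_nt.SumsOfTwoSquares
import Pool.Agent.U80.MQ.Rk

/-!
# The conjecture for most fibres of an elliptic surface over all the subfields of a multiquadratic field

Let `P` be a finite set of primes `≡ 1 mod 4` and `Ω = ℚ(√p : p ∈ P)`. For `t = a / b ∈ ℚ` (in lowest
terms) let `E_t` be the fibre at `t` of the elliptic surface `(t² + 1) y² = x³ - 35 x - 98`; it is the
quadratic twist by `a² + b²` of `X_0(49)`. Theorem: for a positive proportion of ALL rational numbers `t`,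
ordered by `a² + b²` or by the usual height `max (|a|, |b|)`, the conjecture on the rank holds for `E_t`
over all the fields `K ⊆ Ω` at once: `E_t(K)` is finite, `L(E_t/K, s)` is entire and `L(E_t/K, 1) ≠ 0`.
Among the `t` for which `a² + b²` is odd and squarefree the proportion is at least `c ^ (2 ^ |P|)`,
`c = ∏_{i ≥ 0} (1 - 2^{-(2i+1)}) = 0.4194...`.

The proof. By the joint law of `Pool/Agent/U80/WQ` (made for `MP_696deb_nt/SumsOfTwoSquares`), for that
proportion of the `t` all the `2 ^ |P|` twists of `E_t` by the divisors of `∏ P` have finitely many rational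
points and `L(·, 1) ≠ 0`. The Euler product over `K` is the product of those of the twists over `ℚ` by the
characters of `K`: this is done here for `a² + b²` not prime to `P` too (`U80/MQ/Eul`, `Lf`, `Fld`); the rank
over `Ω` is the sum of the ranks of the twists (`U80/MQ/Rk`, with the files `Y682/XD`, `Y888/XD` of the
starting files).
-/

set_option autoImplicit false

open scoped Classical

open WeierstrassCurve NumberField IsDedekindDomain

namespace Pool.Agent.Results.MP_cd906c_nt.FibresOverMultiquadratic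

/-- the height `a² + b²` of the rational number `t = a / b` in lowest terms -/
def height (t : ℚ) : ℕ := t.num.natAbs ^ 2 + t.den ^ 2

/-- the coefficient of `x` -/
def A (D : ℕ) : ℤ := -35 * (D : ℤ) ^ 2

/-- the constant coefficient -/
def B (D : ℕ) : ℤ := -98 * (D : ℤ) ^ 3

/-- the curve `y² = x³ - 35 D² x - 98 D³` over `K` -/
def curve (D : ℕ) (K : Type) [Field K] : WeierstrassCurve K :=
  { a₁ := 0, a₂ := 0, a₃ := 0, a₄ := ((A D : ℤ) : K), a₆ := ((B D : ℤ) : K) }

/-- `a_v = q_v + 1 - #E(k_v) = q_v - #{(x, y) ∈ k_v² : y² = x³ + a x + b}` -/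
noncomputable def trace {K : Type} [Field K] [NumberField K] (a b : ℤ)
    (v : HeightOneSpectrum (𝓞 K)) : ℤ :=
  ((Ideal.absNorm v.asIdeal : ℕ) : ℤ) -
    ((Nat.card {x : (𝓞 K ⧸ v.asIdeal) × (𝓞 K ⧸ v.asIdeal) //
      x.2 ^ 2 = x.1 ^ 3 + (a : 𝓞 K ⧸ v.asIdeal) * x.1 + (b : 𝓞 K ⧸ v.asIdeal)} : ℕ) : ℤ)

/-- the Euler factor at `v` of `y² = x³ + a x + b`; it is `1` at the places that divide
`2 (4 a³ + 27 b²)` -/
noncomputable def factor {K : Type} [Field K] [NumberField K] (a b : ℤ) (s : ℂ)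
    (v : HeightOneSpectrum (𝓞 K)) : ℂ :=
  if ((2 * (4 * a ^ 3 + 27 * b ^ 2) : ℤ) : 𝓞 K) ∈ v.asIdeal then 1 else
    (1 - ((trace a b v : ℤ) : ℂ) * ((Ideal.absNorm v.asIdeal : ℕ) : ℂ) ^ (-s)
      + ((Ideal.absNorm v.asIdeal : ℕ) : ℂ) ^ (1 - 2 * s))⁻¹

/-- the conjecture on the rank for `curve D K`, with order and rank `0`: `E(K)` is finite, the Euler
product (without the factors at the places that divide `2 (4 A³ + 27 B²)`) is an entire function `Λ`, the
order of `Λ` at `1` is the rank of `E(K)`, and both are `0` -/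
def RankZero (D : ℕ) (K : Type) [Field K] [NumberField K] : Prop :=
  Finite (curve D K).toAffine.Point ∧ Module.finrank ℤ (curve D K).toAffine.Point = 0 ∧
    ∃ Λ : ℂ → ℂ, Differentiable ℂ Λ ∧
      (∀ s : ℂ, (3 : ℝ) / 2 < s.re → HasProd (factor (K := K) (A D) (B D) s) (Λ s)) ∧
      analyticOrderAt Λ 1 = ((Module.finrank ℤ (curve D K).toAffine.Point : ℕ) : ℕ∞) ∧ Λ 1 ≠ 0

/-- the field `ℚ(√p : p ∈ P)` -/
noncomputable def Omega (P : Finset ℕ) : IntermediateField ℚ ℂ :=
  IntermediateField.adjoin ℚ {z : ℂ | ∃ q ∈ P, z ^ 2 = (q : ℂ)}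

/-- the conjecture, with order and rank `0`, for the fibre at `t` over all the subfields of
`ℚ(√p : p ∈ P)` -/
def AllFields (P : Finset ℕ) (t : ℚ) : Prop :=
  ∀ K : IntermediateField ℚ ℂ, K ≤ Omega P → ∃ _ : NumberField K, RankZero (height t) K

/-- the rational numbers `t` of height at most `X`, the height being odd and squarefree, with the
property `Q` -/
def Params (Q : ℚ → Prop) (X : ℕ) : Set ℚ :=
  {t | height t ≤ X ∧ Odd (height t) ∧ Squarefree (height t) ∧ Q t}

/-- the constant `0.4194...` -/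
noncomputable def cc : ℝ := ∏' i : ℕ, (1 - (1 / 2 : ℝ) ^ (2 * i + 1))

section proof

open Pool.Agent.Results.MP_696deb_nt.SumsOfTwoSquares (Class Pattern TrivialTwo adm_of rank_of
  par_pat par_all height_pos box_fin box_card twist)
open Pool.Agent.U80.MQ (tc NZ lf_K fin_K Om disc_ne)

/-- the products of the subsets of `P` -/
noncomputable def pr (P : Finset ℕ) : Finset ℕ := P.powerset.image fun S => ∏ q ∈ S, q

theorem prod_pf {S : Finset ℕ} (hS : ∀ q ∈ S, q.Prime) : (∏ q ∈ S, q).primeFactors = S :=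
  Nat.primeFactors_prod hS

theorem pr_card {P : Finset ℕ} (hP : ∀ q ∈ P, q.Prime) : (pr P).card = 2 ^ P.card := by
  unfold pr
  rw [Finset.card_image_of_injOn, Finset.card_powerset]
  intro S hS T hT h
  have hS' := Finset.mem_powerset.1 (Finset.mem_coe.1 hS)
  have hT' := Finset.mem_powerset.1 (Finset.mem_coe.1 hT)
  have h1 : (∏ q ∈ S, q) = ∏ q ∈ T, q := h
  rw [← prod_pf fun q hq => hP q (hS' hq), ← prod_pf fun q hq => hP q (hT' hq), h1]

theorem prod_class {P : Finset ℕ} (hP : ∀ q ∈ P, q.Prime ∧ q % 4 = 1) :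
    ∀ S : Finset ℕ, S ⊆ P → Class (∏ q ∈ S, q) := by
  intro S hS
  have hp : ∀ q ∈ S, q.Prime := fun q hq => (hP q (hS hq)).1
  refine ⟨?_, fun p hp' => ?_⟩
  · have h1 : ∀ S : Finset ℕ, (∀ q ∈ S, q.Prime) → Squarefree (∏ q ∈ S, q) := by
      intro S
      induction S using Finset.induction_on with
      | empty => intro _; simp
      | insert a S ha ih =>
        intro h
        rw [Finset.prod_insert ha, Nat.squarefree_mul]
        · exact ⟨(h a (Finset.mem_insert_self _ _)).prime.squarefree,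
            ih fun q hq => h q (Finset.mem_insert_of_mem hq)⟩
        · refine Nat.Coprime.prod_right fun q hq => ?_
          rw [Nat.coprime_primes (h a (Finset.mem_insert_self _ _))
            (h q (Finset.mem_insert_of_mem hq))]
          rintro rfl
          exact ha hq
    exact h1 S hp
  · rw [prod_pf hp] at hp'
    exact (hP p (hS hp')).2

theorem curve_fin {D : ℕ} (h : Finite (twist D).toAffine.Point) : Finite (tc D ℚ).toAffine.Point := h

theorem rankZero_of {D : ℕ} {K : Type} [Field K] [NumberField K]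
    (hfin : Finite (curve D K).toAffine.Point) {G : ℂ → ℂ} (g1 : Differentiable ℂ G)
    (g2 : ∀ s : ℂ, (3 : ℝ) / 2 < s.re → HasProd (factor (K := K) (A D) (B D) s) (G s))
    (g3 : G 1 ≠ 0) : RankZero D K := by
  have hrk : Module.finrank ℤ (curve D K).toAffine.Point = 0 := Pool.Agent.U80.MQ.finrank_fin
  refine ⟨hfin, hrk, G, g1, g2, ?_, g3⟩
  rw [hrk]
  exact (g1.analyticAt 1).analyticOrderAt_eq_zero.2 g3

/-- the fields -/
theorem all_of {P : Finset ℕ} (hP : ∀ q ∈ P, q.Prime ∧ q % 4 = 1) {t : ℚ} (h1 : Odd (height t))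
    (h2 : Squarefree (height t)) (h : Pattern (pr P) (pr P) t) : AllFields P t := by
  have hA := adm_of h1 h2
  have hP' : ∀ q ∈ P, q.Prime := fun q hq => (hP q hq).1
  have hTT : ∀ S, S ⊆ P → TrivialTwo (Pool.Agent.U80.MQ.tw (∏ q ∈ S, q) (height t)) := by
    intro S hS
    have hm : (∏ q ∈ S, q) ∈ pr P := Finset.mem_image_of_mem _ (Finset.mem_powerset.2 hS)
    exact (h _ hm).2 hm
  intro K hK
  have hfd := (Pool.Agent.U80.MQ.R7_Om P fun q hq => (hP' q hq).ne_zero).1
  have hfd' : FiniteDimensional ℚ (Omega P) := hfd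
  have hKf : FiniteDimensional ℚ K := Pool.Agent.Y682.XD.finDim_of_le hK
  have hN : NumberField K := { to_charZero := inferInstance, to_finiteDimensional := hKf }
  have hfin : Finite (tc (height t) K).toAffine.Point :=
    fin_K hP' h2.ne_zero (fun S hS => curve_fin (hTT S hS).1) K hK
  obtain ⟨G, g1, g2, g3⟩ := lf_K P hP (D := height t) h2 (fun S hS => by
    have hD := Pool.Agent.R413.SQ.Joint.adm_tw (prod_class hP S hS) hA
    obtain ⟨-, F, f1, f2, f3, f4⟩ := rank_of hD (hTT S hS)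
    refine ⟨F, f1, fun s hs => f2 s hs, ?_⟩
    rw [f4] at f3
    exact (f1.analyticAt 1).analyticOrderAt_eq_zero.1 f3) K hK
  exact ⟨hN, rankZero_of hfin g1 (fun s hs => g2 s hs) g3⟩

theorem fib_eq (t : ℚ) {K : Type} [Field K] [CharZero K] (x y : K) :
    ((t : K) ^ 2 + 1) * y ^ 2 = x ^ 3 - 35 * x - 98 ↔
      (curve (height t) K).toAffine.Equation (height t * x)
        ((height t : K) ^ 2 / t.den * y) := by
  rw [Affine.equation_iff]
  have hb : (t.den : K) ≠ 0 := by exact_mod_cast t.den_pos.ne'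
  have hH : (height t : K) = (t.den : K) ^ 2 * ((t : K) ^ 2 + 1) := by
    have h1 : ((height t : ℕ) : ℤ) = t.num ^ 2 + (t.den : ℤ) ^ 2 := Pool.Agent.U80.WQ.ht_int t
    have h2 : ((height t : ℕ) : K) = (t.num : K) ^ 2 + (t.den : K) ^ 2 := by exact_mod_cast h1
    have h3 : (t.num : K) = (t : K) * t.den := by
      have h4 : (t.num : ℚ) = t * t.den := by rw [Rat.mul_den_eq_num]
      have h5 := congrArg (fun z : ℚ => (z : K)) h4
      push_cast at h5
      exact h5
    rw [h2, h3]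
    ring
  have hD0 : (height t : K) ≠ 0 := by exact_mod_cast (height_pos t).ne'
  set D : K := (height t : K) with hDd
  have e1 : (D ^ 2 / t.den * y) ^ 2 = D ^ 3 * (((t : K) ^ 2 + 1) * y ^ 2) := by
    have h1 : (t : K) ^ 2 + 1 = D / (t.den : K) ^ 2 := by
      rw [eq_div_iff (pow_ne_zero 2 hb), hH]
      ring
    rw [h1]
    field_simp
  simp only [curve, A, B]
  push_cast
  rw [← hDd]
  constructor
  · intro h
    have := e1
    rw [h] at this
    linear_combination this
  · intro h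
    have h4 : D ^ 3 * (((t : K) ^ 2 + 1) * y ^ 2) = D ^ 3 * (x ^ 3 - 35 * x - 98) := by
      rw [← e1]
      linear_combination h
    exact mul_left_cancel₀ (pow_ne_zero 3 hD0) h4

theorem pos_all {P : Finset ℕ} (hP : ∀ q ∈ P, q.Prime ∧ q % 4 = 1) :
    ∃ (c : ℝ) (X₀ : ℕ), 0 < c ∧ ∀ X : ℕ, X₀ ≤ X →
      c * X ≤ ({t : ℚ | height t ≤ X ∧ AllFields P t}.ncard : ℝ) := by
  have hT : ∀ M ∈ pr P, Class M := by
    intro M hM
    obtain ⟨S, hS, rfl⟩ := Finset.mem_image.1 hM
    exact prod_class hP S (Finset.mem_powerset.1 hS)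
  obtain ⟨c, X₀, hc0, h⟩ := Pool.Agent.U80.WQ.joint_count hT (Finset.Subset.refl (pr P))
  refine ⟨c, X₀, hc0, fun X hX => ?_⟩
  have h1 := h X hX
  rw [← par_pat hT] at h1
  have h3 : (Pool.Agent.Results.MP_696deb_nt.SumsOfTwoSquares.Params
      (Pattern (pr P) (pr P)) X).ncard ≤ {t : ℚ | height t ≤ X ∧ AllFields P t}.ncard := by
    refine Set.ncard_le_ncard (fun t ht => ⟨ht.1, ?_⟩)
      ((Pool.Agent.U80.WQ.finite_ht X).subset fun t ht => ht.1)
    exact all_of hP ht.2.1 ht.2.2.1 ht.2.2.2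
  exact h1.trans (by exact_mod_cast h3)

end proof

open Pool.Agent.Results.MP_696deb_nt.SumsOfTwoSquares (Pattern par_pat par_all) in
theorem result :
    (∀ (t : ℚ) (K : Type) [Field K] [CharZero K] (x y : K),
      ((t : K) ^ 2 + 1) * y ^ 2 = x ^ 3 - 35 * x - 98 ↔
        (curve (height t) K).toAffine.Equation (height t * x)
          ((height t : K) ^ 2 / t.den * y)) ∧
    (∀ P : Finset ℕ, (∀ p ∈ P, p.Prime ∧ p % 4 = 1) →
      (∀ ε : ℝ, 0 < ε → ∃ X₀ : ℕ, ∀ X : ℕ, X₀ ≤ X →
        (cc ^ 2 ^ P.card - ε) * ((Params (fun _ => True) X).ncard : ℝ) ≤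
          ((Params (AllFields P) X).ncard : ℝ)) ∧
      ∃ (c : ℝ) (X₀ : ℕ), 0 < c ∧ ∀ X : ℕ, X₀ ≤ X →
        c * ({t : ℚ | height t ≤ X}.ncard : ℝ) ≤
          ({t : ℚ | height t ≤ X ∧ AllFields P t}.ncard : ℝ) ∧
        c * ({t : ℚ | max t.num.natAbs t.den ≤ X}.ncard : ℝ) ≤
          ({t : ℚ | max t.num.natAbs t.den ≤ X ∧ AllFields P t}.ncard : ℝ)) ∧
    0.4194 < cc ∧ cc < 0.4195 := by
  have hc := Pool.Agent.Y948.CQ.t_C2.2.2.2
  refine ⟨fun t K _ _ x y => fib_eq t x y, fun P hP => ⟨fun ε hε => ?_, ?_⟩, hc.1, hc.2⟩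
  · have hT : ∀ M ∈ pr P, Pool.Agent.Results.MP_696deb_nt.SumsOfTwoSquares.Class M := by
      intro M hM
      obtain ⟨S, hS, rfl⟩ := Finset.mem_image.1 hM
      exact prod_class hP S (Finset.mem_powerset.1 hS)
    have h := Pool.Agent.U80.WQ.joint_t hT (Finset.Subset.refl (pr P))
    rw [Finset.sdiff_self, Finset.card_empty, pow_zero, mul_one, pr_card fun q hq => (hP q hq).1] at h
    have hlt : cc ^ 2 ^ P.card - ε < cc ^ 2 ^ P.card := sub_lt_self _ hε
    obtain ⟨X₀, hX₀⟩ := Filter.eventually_atTop.1 (h.eventually (lt_mem_nhds hlt))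
    refine ⟨X₀, fun X hX => ?_⟩
    have h1 := hX₀ X hX
    rw [← par_pat hT, ← par_all] at h1
    have h2 : (Pool.Agent.Results.MP_696deb_nt.SumsOfTwoSquares.Params
        (Pattern (pr P) (pr P)) X).ncard ≤ (Params (AllFields P) X).ncard := by
      refine Set.ncard_le_ncard (fun t ht => ⟨ht.1, ht.2.1, ht.2.2.1, ?_⟩)
        ((Pool.Agent.U80.WQ.finite_ht X).subset fun t ht => ht.1)
      exact all_of hP ht.2.1 ht.2.2.1 ht.2.2.2
    have h3 : ((Pool.Agent.Results.MP_696deb_nt.SumsOfTwoSquares.Params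
        (Pattern (pr P) (pr P)) X).ncard : ℝ) ≤ ((Params (AllFields P) X).ncard : ℝ) := by
      exact_mod_cast h2
    refine le_trans ?_ h3
    have h4 : (0 : ℝ) ≤ ((Params (fun _ => True) X).ncard : ℝ) := Nat.cast_nonneg _
    rcases h4.eq_or_lt with h5 | h5
    · rw [← h5, mul_zero]
      exact Nat.cast_nonneg _
    · exact ((lt_div_iff₀ h5).1 h1).le
  · obtain ⟨c, X₀, hc0, h⟩ := pos_all hP
    refine ⟨c / 6, X₀ + 1, by positivity, fun X hX => ⟨?_, ?_⟩⟩
    · have h1 := h X (by omega)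
      have h2 : ({t : ℚ | height t ≤ X}.ncard : ℝ) ≤ 3 * X := Pool.Agent.U80.WQ.total_t X
      refine le_trans ?_ h1
      have h3 : (0 : ℝ) ≤ X := Nat.cast_nonneg X
      calc c / 6 * ({t : ℚ | height t ≤ X}.ncard : ℝ) ≤ c / 6 * (3 * X) :=
            mul_le_mul_of_nonneg_left h2 (by positivity)
        _ ≤ c * X := by nlinarith
    · have hX1 : X ≤ X ^ 2 := Nat.le_self_pow (by norm_num) X
      have h1 := h (X ^ 2) (by omega)
      have h2 : ({t : ℚ | max t.num.natAbs t.den ≤ X}.ncard : ℝ) ≤ 6 * X ^ 2 :=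
        Pool.Agent.Results.MP_696deb_nt.SumsOfTwoSquares.box_card (by omega)
      have h3 : {t : ℚ | height t ≤ X ^ 2 ∧ AllFields P t} ⊆
          {t : ℚ | max t.num.natAbs t.den ≤ X ∧ AllFields P t} := by
        rintro t ⟨h4, h5⟩
        refine ⟨?_, h5⟩
        have h6 : t.num.natAbs ^ 2 + t.den ^ 2 ≤ X ^ 2 := h4
        refine max_le ?_ ?_
        · exact (Nat.pow_le_pow_iff_left (by norm_num : (2 : ℕ) ≠ 0)).1 (by omega)
        · exact (Nat.pow_le_pow_iff_left (by norm_num : (2 : ℕ) ≠ 0)).1 (by omega)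
      have h4 := Set.ncard_le_ncard h3
        ((Pool.Agent.Results.MP_696deb_nt.SumsOfTwoSquares.box_fin X).subset fun t ht => ht.1)
      have h5 : ({t : ℚ | height t ≤ X ^ 2 ∧ AllFields P t}.ncard : ℝ) ≤
          ({t : ℚ | max t.num.natAbs t.den ≤ X ∧ AllFields P t}.ncard : ℝ) := by
        exact_mod_cast h4
      push_cast at h1
      refine le_trans ?_ (h1.trans h5)
      calc c / 6 * ({t : ℚ | max t.num.natAbs t.den ≤ X}.ncard : ℝ) ≤ c / 6 * (6 * X ^ 2) :=
            mul_le_mul_of_nonneg_left h2 (by positivity)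
        _ = c * X ^ 2 := by ring

end Pool.Agent.Results.MP_cd906c_nt.FibresOverMultiquadratic
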