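import Pool.Agent.U143.RG.Bsd

/-!
# The rank part of the Birch–Swinnerton-Dyer conjecture over intermediate fields

Let `E` be an elliptic curve over a number field `K` and `F/K` a finite Galois extension with group `G`. For
totally real and for CM fields `K` there is an `F` over which `E` is modular (Taylor; Allen, Calegari,
Caraiani, Gee, Helm, Le Hung, Newton, Scholze, Taylor, Thorne); by solvable descent (Langlands,
Arthur–Clozel) the L-functions `L(E/F^U ⊗ ψ, s)` are then entire for all SOLVABLE subgroups `U` of `G` and all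
linear characters `ψ` of `U`. In general `G` is not solvable, and nothing else is known about the zeros and
poles at `s = 1` of the L-functions of `E` over the intermediate fields and of the twists of `E` by the
representations of `G`; over `K` itself the conjecture is known for orders at most one in many cases
(Gross–Zagier, Kolyvagin, Zhang).

Suppose that the order at `s = 1` of the L-function of `E` and the rank of the group of points grow by at most
`r` in each step of a chain of Galois extensions `F_t ⊂ … ⊂ F_0 = F` of `K`, `F/F_t` solvable, with order and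
rank at most `r` over `F_t` (for `t = 0`: the order of `L(E/F, s)` and the rank of `E(F)` are at most `r`), and
that the normal subgroup `N` of `G` is built from products of groups `A_m` (`m ≥ 8`, `r ≤ m - 3`, or
`r ≤ m - 2` and `m` not prime) and `SL_2(q)` (`q` even, `r ≤ q - 2`) and from abelian groups with more than `r`
conjugates of each nontrivial character. Then for every subgroup `U` of `G` the order and the rank over `F^U`
are the order and the rank over `F^(UN)`, so that the conjecture over `F^U` is equivalent to the conjecture over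
`F^(UN)`; for `G = N`, for example for `G = A_m`, `m ≥ r + 3`, the conjecture over ONE field between `K` and `F`
implies the conjecture over all of them. The twists by the representations without vectors fixed by `N` have
order `0` and do not occur in `E(F)`. The equality of the order at `s = 1` and the multiplicity in `E(F)` for
ALL representations of `G` follows from the conjecture over the fields `F^(⟨g⟩N)`, `g ∈ G`, if `φ(n) ≤ 2` or
`φ(n)` is larger than the rank of `E(F)`, for the orders `n` of the elements of `G/N`; for `G = S_m`,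
`m ≥ r + 3`, these fields are `K` and its quadratic extension in `F`.

The proof: the orders at `s = 1` form a class function on `G` with nonnegative integral multiplicities at the
linear characters of the SOLVABLE subgroups, and so does the character of `E(F)`; along the chain both are sums
of such functions of degree at most `r`, which are constant on the cosets of `N` (`Pool.Agent.U143.RG`). The
last part compares a real function and a rational function on the cyclic subgroups of `G/N`
(`Pool.Agent.U143.EQ`).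
-/

set_option autoImplicit false
open NumberField
open Classical

namespace Pool.Agent.Results.MP_cd906c_nt.IntermediateFields

open IsDedekindDomain
open Pool.Agent.H541R3.ART (Irr)
open Pool.Agent.R389 (ind IsDecomp)

/-- `M v` is, for every `v`, an integral model of `E` with discriminant minimal at `v`. -/
def MinimalModels {K : Type} [Field K] [NumberField K] (E : WeierstrassCurve K)
    (M : HeightOneSpectrum (𝓞 K) → WeierstrassCurve (𝓞 K)) : Prop :=
  ∀ v : HeightOneSpectrum (𝓞 K),
    (∃ C : WeierstrassCurve.VariableChange K, C • E = (M v).map (algebraMap (𝓞 K) K)) ∧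
    ∀ W : WeierstrassCurve (𝓞 K),
      (∃ C : WeierstrassCurve.VariableChange K, C • E = W.map (algebraMap (𝓞 K) K)) →
        ∀ n : ℕ, (M v).Δ ∈ v.asIdeal ^ n → W.Δ ∈ v.asIdeal ^ n

/-- The Euler product of the Hasse–Weil L-function, computed from the reductions of the models `M v`. -/
noncomputable def LSeries {K : Type} [Field K] [NumberField K]
    (M : HeightOneSpectrum (𝓞 K) → WeierstrassCurve (𝓞 K)) (s : ℂ) : ℂ :=
  ∏' v : HeightOneSpectrum (𝓞 K),
    (1 - ((((Ideal.absNorm v.asIdeal : ℕ) : ℤ) -
          ((Nat.card {p : (𝓞 K ⧸ v.asIdeal) × (𝓞 K ⧸ v.asIdeal) //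
            p.2 ^ 2 + Ideal.Quotient.mk v.asIdeal (M v).a₁ * p.1 * p.2
              + Ideal.Quotient.mk v.asIdeal (M v).a₃ * p.2
            = p.1 ^ 3 + Ideal.Quotient.mk v.asIdeal (M v).a₂ * p.1 ^ 2
              + Ideal.Quotient.mk v.asIdeal (M v).a₄ * p.1
              + Ideal.Quotient.mk v.asIdeal (M v).a₆} : ℕ) : ℤ) : ℤ) : ℂ)
          * ((Ideal.absNorm v.asIdeal : ℕ) : ℂ) ^ (-s)
      + (if (M v).Δ ∈ v.asIdeal then (0 : ℂ) else 1)
          * ((Ideal.absNorm v.asIdeal : ℕ) : ℂ) ^ (1 - 2 * s))⁻¹

/-- The formal properties of the L-functions `L(E/K, χ, s)`, `χ` an irreducible complex character of the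
Galois group `G` of `F/K`: they are analytic for `Re s > 3/2`, have a meromorphic continuation to the plane
and do not vanish identically, the L-function of the conjugate character is the conjugate function, and for
every subgroup `U` of `G` the product of the `L(E/K, χ, s) ^ ⟨χ|_U, 1⟩` is, for `Re s > 3/2`, the Euler
product of the Hasse–Weil L-function of `E` over the fixed field of `U`. -/
structure TwistFamily (K : Type) [Field K] [NumberField K] (E : WeierstrassCurve K)
    (F : Type) [Field F] [NumberField F] [Algebra K F] where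
  /-- the function `L(E/K, χ, s)` -/
  L : ((F ≃ₐ[K] F) → ℂ) → ℂ → ℂ
  analytic : ∀ χ ∈ Irr (F ≃ₐ[K] F), ∀ s : ℂ, (3 / 2 : ℝ) < s.re → AnalyticAt ℂ (L χ) s
  mero : ∀ χ ∈ Irr (F ≃ₐ[K] F), ∀ s : ℂ, MeromorphicAt (L χ) s ∧ meromorphicOrderAt (L χ) s ≠ ⊤
  conj : ∀ χ ∈ Irr (F ≃ₐ[K] F), ∀ s : ℂ,
    L (fun g => (starRingEnd ℂ) (χ g)) ((starRingEnd ℂ) s) = (starRingEnd ℂ) (L χ s)
  euler : ∀ (U : Subgroup (F ≃ₐ[K] F)) (m : ((F ≃ₐ[K] F) → ℂ) → ℕ),
    IsDecomp (ind U (fun _ => 1)) m →
    ∀ M : HeightOneSpectrum (𝓞 (IntermediateField.fixedField U)) →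
        WeierstrassCurve (𝓞 (IntermediateField.fixedField U)),
      MinimalModels (E.map (algebraMap K (IntermediateField.fixedField U))) M →
        ∀ s : ℂ, (3 / 2 : ℝ) < s.re → ∏ᶠ χ ∈ Irr (F ≃ₐ[K] F), L χ s ^ m χ = LSeries M s

/-- The order at `s = 1` of `L(E/K, τ, s)` for a representation `τ` of `G` in which `χ` occurs with the
multiplicity `m χ`, the product of the `L(E/K, χ, s) ^ m χ`. For the multiplicities of the character
induced from a linear character `ψ` of a subgroup `U` this is the order at `s = 1` of `L(E/F^U ⊗ ψ, s)`. -/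
noncomputable def TwistFamily.order {K : Type} [Field K] [NumberField K] {E : WeierstrassCurve K}
    {F : Type} [Field F] [NumberField F] [Algebra K F] (T : TwistFamily K E F)
    (m : ((F ≃ₐ[K] F) → ℂ) → ℕ) : WithTop ℤ :=
  meromorphicOrderAt (fun z => ∏ᶠ χ ∈ Irr (F ≃ₐ[K] F), T.L χ z ^ m χ) 1

/-- The rank of the group `E(L)` of points of `E` over the extension `L` of `K`. -/
noncomputable def rank {K : Type} [Field K] (E : WeierstrassCurve K) (L : Type) [Field L]
    [Algebra K L] : ℕ :=
  Module.finrank ℤ (E.baseChange L).toAffine.Point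

/-- The action of `Gal(F/K)` on the group `E(F)`. -/
noncomputable def action {K : Type} [Field K] (E : WeierstrassCurve K) (F : Type) [Field F]
    [Algebra K F] : Representation ℤ (F ≃ₐ[K] F) (E.baseChange F).toAffine.Point where
  toFun σ := (WeierstrassCurve.Affine.Point.map (W' := E.toAffine)
    (σ : F →ₐ[K] F)).toIntLinearMap
  map_one' := by
    ext P
    cases P <;> rfl
  map_mul' σ τ := by
    ext P
    cases P <;> rfl

/-- The complex representation `E(F)_ℂ` of `Gal(F/K)` on `ℂ ⊗ E(F)`. -/
noncomputable def mordellWeil {K : Type} [Field K] (E : WeierstrassCurve K) (F : Type) [Field F]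
    [Algebra K F] :
    Representation ℂ (F ≃ₐ[K] F) (TensorProduct ℤ ℂ (E.baseChange F).toAffine.Point) where
  toFun σ := (action E F σ).baseChange ℂ
  map_one' := by rw [map_one]; exact LinearMap.baseChange_id
  map_mul' g h := by rw [map_mul]; exact LinearMap.baseChange_mul _ _

/-- The rank part of the Birch–Swinnerton-Dyer conjecture for `E` over the fixed field of `U`: the order at
`s = 1` of the L-function of `E` over this field, which is the product of the `L(E/K, χ, s) ^ ⟨χ|_U, 1⟩`, is the
rank of the group of points. -/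
def TwistFamily.RankPart {K : Type} [Field K] [NumberField K] {E : WeierstrassCurve K}
    {F : Type} [Field F] [NumberField F] [Algebra K F] (T : TwistFamily K E F)
    (U : Subgroup (F ≃ₐ[K] F)) : Prop :=
  ∀ m : ((F ≃ₐ[K] F) → ℂ) → ℕ, IsDecomp (ind U (fun _ => 1)) m →
    T.order m = ((rank E (IntermediateField.fixedField U) : ℤ) : WithTop ℤ)

/-- There is a chain `⊥ = C 0 ≤ C 1 ≤ … ≤ C t` of solvable normal subgroups of `G` such that the order at
`s = 1` of the L-function of `E` and the rank of the group of points are at most by `r` larger over the fixed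
field of `C i` than over the fixed field of `C (i + 1)`, for `i < t`, and at most `r` over the fixed field of
`C t`. For `t = 0`: the order at `s = 1` of the L-function of `E` over `F` and the rank of `E(F)` are at most
`r`. -/
def TwistFamily.GrowsBy {K : Type} [Field K] [NumberField K] {E : WeierstrassCurve K}
    {F : Type} [Field F] [NumberField F] [Algebra K F] (T : TwistFamily K E F) (r : ℕ) : Prop :=
  ∃ (t : ℕ) (C : ℕ → Subgroup (F ≃ₐ[K] F)), Monotone C ∧ (∀ i, (C i).Normal) ∧ C 0 = ⊥ ∧
    Group.IsSolvable (C t) ∧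
    (∀ i < t, ∀ m m' : ((F ≃ₐ[K] F) → ℂ) → ℕ, IsDecomp (ind (C i) (fun _ => 1)) m →
      IsDecomp (ind (C (i + 1)) (fun _ => 1)) m' → T.order m ≤ T.order m' + (r : WithTop ℤ)) ∧
    (∀ m : ((F ≃ₐ[K] F) → ℂ) → ℕ, IsDecomp (ind (C t) (fun _ => 1)) m →
      T.order m ≤ (r : WithTop ℤ)) ∧
    (∀ i < t, rank E (IntermediateField.fixedField (C i))
      ≤ rank E (IntermediateField.fixedField (C (i + 1))) + r) ∧
    rank E (IntermediateField.fixedField (C t)) ≤ r

/-- `S` is isomorphic to an alternating group of degree `m ≥ 8` with `r ≤ m - 3`, or `r ≤ m - 2` and `m`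
not prime, or to `SL_2(k)` for a finite field `k` of characteristic two with at least `r + 2` elements. -/
def Factor (r : ℕ) (S : Type) [Group S] : Prop :=
  (∃ m : ℕ, 8 ≤ m ∧ (r + 3 ≤ m ∨ (r + 2 ≤ m ∧ ¬ m.Prime)) ∧
    Nonempty (S ≃* alternatingGroup (Fin m))) ∨
  (∃ (k : Type) (_ : Field k) (_ : Finite k) (_ : CharP k 2), r + 2 ≤ Nat.card k ∧
    Nonempty (S ≃* Matrix.SpecialLinearGroup (Fin 2) k))

/-- The normal subgroup `A` of `Q` is a direct product of finitely many groups with the property `Factor r`,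
or it is abelian and every linear character `lam ≠ 1` of `A` has more than `r` different conjugates
`a ↦ lam (g a g⁻¹)`, `g ∈ Q`. -/
def Layer (r : ℕ) {Q : Type} [Group Q] (A : Subgroup Q) : Prop :=
  (∃ (l : ℕ) (S : Fin l → Type) (_ : ∀ j, Group (S j)),
    (∀ j, Factor r (S j)) ∧ Nonempty (A ≃* ∀ j, S j)) ∨
  ((∀ a ∈ A, ∀ b ∈ A, a * b = b * a) ∧ ∀ lam : A →* ℂˣ, lam ≠ 1 →
    r < {mu : A →* ℂˣ | ∃ g : Q, ∀ a b : A, (b : Q) = g * a * g⁻¹ → mu a = lam b}.ncard)

/-- There is a chain `1 = C 0 ≤ C 1 ≤ … ≤ C t = N` of normal subgroups of `G` such that the image of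
`C (i + 1)` in `G / C i` has the property `Layer r`, for `i < t`. -/
def Built (r : ℕ) {G : Type} [Group G] (N : Subgroup G) : Prop :=
  ∃ (t : ℕ) (C : ℕ → Subgroup G) (_ : ∀ i, (C i).Normal), C 0 = ⊥ ∧ C t = N ∧ Monotone C ∧
    ∀ i < t, Layer r ((C (i + 1)).map (QuotientGroup.mk' (C i)))

end Pool.Agent.Results.MP_cd906c_nt.IntermediateFields

open Pool.Agent.H541R3.ART (Irr)
open Pool.Agent.R389 (ind IsDecomp)
open Pool.Agent.Results.MP_cd906c_nt.IntermediateFields

theorem Pool.Agent.Results.MP_cd906c_nt.IntermediateFields.Factor.finite {r : ℕ} {S : Type} [Group S]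
    (h : Factor r S) : Finite S := by
  rcases h with ⟨m, -, -, ⟨e⟩⟩ | ⟨k, _, _, _, -, ⟨e⟩⟩
  · exact Finite.of_equiv _ e.symm.toEquiv
  · exact Finite.of_equiv _ e.symm.toEquiv

theorem Pool.Agent.Results.MP_cd906c_nt.IntermediateFields.Factor.rigid {r : ℕ} {S : Type} [Group S]
    (h : Factor r S) : Pool.Agent.U143.RG.SRigid r S := by
  have hf := h.finite
  rcases h with ⟨m, hm, hr, ⟨e⟩⟩ | ⟨k, _, _, _, hr, ⟨e⟩⟩
  · exact (Pool.Agent.U143.RG.alt_range hm hr).of_surj e.symm.toMonoidHom e.symm.surjective
  · exact (Pool.Agent.U143.RG.sl2_rigid hr).of_surj e.symm.toMonoidHom e.symm.surjective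

theorem Pool.Agent.Results.MP_cd906c_nt.IntermediateFields.Layer.const {r : ℕ} {Q : Type} [Group Q]
    [Finite Q] {A : Subgroup Q} (hA : A.Normal) (h : Layer r A) {θ : Q → ℂ}
    (hθ : Pool.Agent.H302R3.IsSolHeilbronn θ) {s : ℕ} (hs : s ≤ r) (h1 : θ 1 = s) :
    ∀ n ∈ A, ∀ x, θ (n * x) = θ x := by
  rcases h with ⟨l, S, _, hS, ⟨e⟩⟩ | ⟨hc, ho⟩
  · have hfin : ∀ j, Finite (S j) := fun j => (hS j).finite
    exact Pool.Agent.U143.RG.const_of_prod hθ hs h1 A (fun j => (hS j).rigid)
      (A.subtype.comp e.symm.toMonoidHom) fun n hn => ⟨e ⟨n, hn⟩, by simp⟩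
  · exact Pool.Agent.U143.RG.const_of_orbit hθ hs h1 A hc ho

theorem Pool.Agent.Results.MP_cd906c_nt.IntermediateFields.Built.const {r : ℕ} {G : Type} [Group G]
    [Finite G] {N : Subgroup G} (h : Built r N) {θ : G → ℂ}
    (hθ : Pool.Agent.H302R3.IsSolHeilbronn θ) {s : ℕ} (hs : s ≤ r) (h1 : θ 1 = s) :
    ∀ n ∈ N, ∀ x, θ (n * x) = θ x := by
  obtain ⟨t, C, hn, h0, rfl, -, hl⟩ := h
  exact Pool.Agent.U143.RG.const_chain hθ h1 t C hn h0 fun i hi η hη hη1 =>
    (hl i hi).const (Subgroup.Normal.map (hn (i + 1)) _ (QuotientGroup.mk'_surjective _)) hη hs hη1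

/-- **The rank conjecture over intermediate fields.** Let `E` be an elliptic curve over the number field `K`,
`F/K` a finite Galois extension with group `G`, `T` a family of functions with the formal properties of the
L-functions `L(E/K, χ, s)`. Suppose that `E(F)` is finitely generated (Mordell–Weil), that `L(E/F^U ⊗ ψ, s)` has
no pole at `s = 1` for the linear characters `ψ` of the SOLVABLE subgroups `U` of `G`, and that the order at
`s = 1` and the rank grow by at most `r` along a chain of fields as in `TwistFamily.GrowsBy` (for example: the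
order of `L(E/F, s)` at `s = 1` and the rank of `E(F)` are at most `r`). Let the normal subgroup `N` be built
from products of groups `A_m`, `SL_2(2^k)` in the range of `r` and from abelian groups with more than `r`
conjugates of each nontrivial character.
* If the representation `τ` of `G` has no nonzero vectors fixed by `N`, then the order at `s = 1` of
  `L(E/K, τ, s)` is zero and `τ` has no nonzero homomorphisms to `E(F)_ℂ`.
* For all subgroups `U` of `G` the order at `s = 1` of the L-function of `E` and the rank of the group of points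
  are the same over `F^U` and over `F^(UN)`. Hence the rank conjecture for `E` over `F^U` is equivalent to the
  rank conjecture for `E` over `F^(UN)`; and if `N = G`, the rank conjecture over one field between `K` and `F`
  implies the rank conjecture over all of them.
* Suppose that the rank conjecture holds over `F^(⟨g⟩N)` for all `g ∈ G` and that for the orders `n` of the
  elements of `G/N` the number `φ(n)` is at most two or larger than the rank of `E(F)` (this is always true if
  the exponent of `G/N` divides 4 or 6). Then the order at `s = 1` of `L(E/K, τ, s)` is the dimension of the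
  space of `G`-homomorphisms from `τ` to `E(F)_ℂ`, for ALL complex representations `τ` of `G`, and the rank
  conjecture holds for `E` over all fields between `K` and `F`. -/
theorem Pool.Agent.Results.MP_cd906c_nt.IntermediateFields.result
    (K : Type) [Field K] [NumberField K] (E : WeierstrassCurve K) (_hE : E.IsElliptic)
    (F : Type) [Field F] [NumberField F] [Algebra K F] [IsGalois K F] (T : TwistFamily K E F)
    (hMW : Module.Finite ℤ (E.baseChange F).toAffine.Point)
    (hsol : ∀ U : Subgroup (F ≃ₐ[K] F), Group.IsSolvable U → ∀ (ψ : U →* ℂˣ)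
      (m : ((F ≃ₐ[K] F) → ℂ) → ℕ), IsDecomp (ind U (fun x => ((ψ x : ℂˣ) : ℂ))) m →
        0 ≤ T.order m)
    (r : ℕ) (hr : T.GrowsBy r) (N : Subgroup (F ≃ₐ[K] F)) [N.Normal] (hN : Built r N) :
    (∀ (V : Type) [AddCommGroup V] [Module ℂ V] [FiniteDimensional ℂ V]
      (τ : Representation ℂ (F ≃ₐ[K] F) V), (∀ v, (∀ n ∈ N, τ n v = v) → v = 0) →
      (∀ m : ((F ≃ₐ[K] F) → ℂ) → ℕ, IsDecomp τ.character m → T.order m = 0) ∧
        Module.finrank ℂ (Representation.IntertwiningMap τ (mordellWeil E F)) = 0) ∧
    (∀ U : Subgroup (F ≃ₐ[K] F),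
      (∀ m m' : ((F ≃ₐ[K] F) → ℂ) → ℕ, IsDecomp (ind U (fun _ => 1)) m →
        IsDecomp (ind (U ⊔ N) (fun _ => 1)) m' → T.order m = T.order m') ∧
      rank E (IntermediateField.fixedField U) = rank E (IntermediateField.fixedField (U ⊔ N)) ∧
      (T.RankPart U ↔ T.RankPart (U ⊔ N))) ∧
    (N = ⊤ → (∃ U : Subgroup (F ≃ₐ[K] F), T.RankPart U) →
      ∀ U : Subgroup (F ≃ₐ[K] F), T.RankPart U) ∧
    ((∀ g : F ≃ₐ[K] F, T.RankPart (Subgroup.zpowers g ⊔ N)) →
      (∀ g : F ≃ₐ[K] F, (orderOf (g : (F ≃ₐ[K] F) ⧸ N)).totient ≤ 2 ∨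
        rank E F < (orderOf (g : (F ≃ₐ[K] F) ⧸ N)).totient) →
      (∀ (V : Type) [AddCommGroup V] [Module ℂ V] [FiniteDimensional ℂ V]
        (τ : Representation ℂ (F ≃ₐ[K] F) V) (m : ((F ≃ₐ[K] F) → ℂ) → ℕ),
        IsDecomp τ.character m →
          T.order m = ((Module.finrank ℂ (Representation.IntertwiningMap τ (mordellWeil E F)) : ℤ)
            : WithTop ℤ)) ∧
      ∀ U : Subgroup (F ≃ₐ[K] F), T.RankPart U) := by
  have hG : Finite (F ≃ₐ[K] F) := inferInstance
  have hL : ∀ χ ∈ Irr (F ≃ₐ[K] F),
      MeromorphicAt (T.L χ) 1 ∧ meromorphicOrderAt (T.L χ) 1 ≠ ⊤ := fun χ hχ => T.mero χ hχ 1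
  obtain ⟨t, C, hC, hn, h0, hs, hg, hl, hg', hl'⟩ := hr
  let ρ := Pool.Agent.U143.EQ.galPoints E F
  have hrk : ∀ U : Subgroup (F ≃ₐ[K] F), Module.finrank ℤ (Pool.Agent.U143.EQ.fixed ρ U)
      = rank E (IntermediateField.fixedField U) := fun U => Pool.Agent.U143.EQ.finrank_fixed' E F U
  have hadd : ∀ a b : (F ≃ₐ[K] F) → ℂ, (∀ n ∈ N, ∀ x, a (n * x) = a x) →
      (∀ n ∈ N, ∀ x, b (n * x) = b x) → ∀ n ∈ N, ∀ x, (a (n * x) + b (n * x)) = a x + b x :=
    fun a b ha hb n hn x => by rw [ha n hn x, hb n hn x]
  have hc : ∀ n ∈ N, ∀ x, (Pool.Agent.H541R3.ART.theta (Pool.Agent.R389.ords T.L 1) :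
      (F ≃ₐ[K] F) → ℂ) (n * x)
        = (Pool.Agent.H541R3.ART.theta (Pool.Agent.R389.ords T.L 1) : (F ≃ₐ[K] F) → ℂ) x :=
    Pool.Agent.U143.RG.ords_prop hL hsol r t C hC hn h0 hs hg hl
      (fun θ => ∀ n ∈ N, ∀ x, θ (n * x) = θ x) hadd fun η hη s hsr h1 => hN.const hη hsr h1
  have hc' := Pool.Agent.U143.RG.char_prop ρ r t C hC hn h0 hs
      (fun i hi => by rw [hrk, hrk]; exact hg' i hi) (by rw [hrk]; exact hl')
      (fun θ => ∀ n ∈ N, ∀ x, θ (n * x) = θ x) hadd fun η hη s hsr h1 => hN.const hη hsr h1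
  have hord : ∀ (U : Subgroup (F ≃ₐ[K] F)) (m m' : ((F ≃ₐ[K] F) → ℂ) → ℕ),
      IsDecomp (ind U (fun _ => 1)) m → IsDecomp (ind (U ⊔ N) (fun _ => 1)) m' →
        T.order m = T.order m' := fun U m m' hm hm' =>
    Pool.Agent.U143.RG.order_sup hL hc U hm hm'
  have hran : ∀ U : Subgroup (F ≃ₐ[K] F),
      rank E (IntermediateField.fixedField U) = rank E (IntermediateField.fixedField (U ⊔ N)) := by
    intro U
    rw [← hrk, ← hrk]
    exact Pool.Agent.U143.RG.rank_sup ρ hc' U
  have hiff : ∀ U : Subgroup (F ≃ₐ[K] F), T.RankPart U ↔ T.RankPart (U ⊔ N) := by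
    intro U
    constructor
    · intro h m' hm'
      obtain ⟨m, hm⟩ := Pool.Agent.U143.SH.one_decomp U
      rw [← hord U m m' hm hm', h m hm, hran U]
    · intro h m hm
      obtain ⟨m', hm'⟩ := Pool.Agent.U143.SH.one_decomp (U ⊔ N)
      rw [hord U m m' hm hm', h m' hm', ← hran U]
  refine ⟨fun V _ _ _ τ hτ => ⟨fun m hm => ?_, ?_⟩, fun U => ⟨hord U, hran U, hiff U⟩, ?_, ?_⟩
  · exact Pool.Agent.U143.RG.new_order hL hc τ hτ hm
  · exact Pool.Agent.U143.RG.new_hom ρ hc' τ hτ
  · rintro rfl ⟨U, hU⟩ W
    rw [hiff W, sup_top_eq, ← sup_top_eq U, ← hiff U]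
    exact hU
  · intro hz hcond
    have h1 := Pool.Agent.U143.RG.theta_eq hL T.conj hsol ρ hc hc'
      (fun g m hm => by
        rw [hrk]
        exact hz g m hm) hcond
    refine ⟨fun V _ _ _ τ m hm => Pool.Agent.U143.RG.all_of_eq hL ρ h1 τ m hm, fun U m hm => ?_⟩
    have h2 := Pool.Agent.U143.RG.fields_of_eq hL ρ h1 U m hm
    rw [hrk] at h2
    exact h2
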