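import Pool.Agent.U81.MQ.Top

/-!
# The Birch and Swinnerton-Dyer rank conjecture over all finite layers of infinite nonabelian towers of number fields

`K` is an imaginary quadratic field of class number one, `E : y² = x³ + a x + b` is an elliptic curve over `K` (in
general it is not defined over `ℚ` and not a base change), and `f` is the Bianchi newform of `E`.  We suppose that
`E(K)[2] = 0`, that the `2`-Selmer group of `E/K` is trivial, and that `L(E/K, 1) ≠ 0`.

A rational prime `q` is admissible if it splits in `K` and `x³ + a x + b` has no roots modulo the two places above `q`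
(and `E` has good reduction there).  The admissible primes have positive lower density among all primes.

Theorem.  For every infinite set `S` of admissible primes there is an infinite extension `K∞` of `K` such that

* `K∞` is a Galois extension of `ℚ` with a nonabelian Galois group, and `Gal(K∞/K)` has exponent two;
* `K∞/K` is unramified outside of the places above the primes of `S`, and the places above `2(4a³ + 27b²)` split
  completely in `K∞`;
* for all the finite extensions `F/K` in `K∞` the function `L(E/F, s)` (the Euler product over all the finite places of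
  `F`) is continued to an entire function, `ord_{s=1} L(E/F, s) = rank E(F) = 0`, `E(F)` is finite of odd order, and
  `Ш(E/F)[2^∞] = 0`, `H¹_f(F, V_2 E) = 0`.

The nonabelian extensions `F/ℚ` which are here (of degree `2^k`, e.g. with the dihedral group of order `8`) are not
covered by base changes from `ℚ`: `E` is not defined over `ℚ`.

The proof.  The starting library of helper15 (`Pool.Agent.K4H15.BW.main`) gives a set `𝒟 ⊂ 𝓞`, a group modulo squares,
infinite, stable under the complex conjugation, such that the twist `L(f ⊗ χ_D, 1)` is not zero for `D ∈ 𝒟` (by a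
Möbius inversion for the sums of the modular symbols modulo a prime above `2` in blocks of admissible primes); the
elements `D ∈ 𝒟` are products of different admissible places and are congruent to `1` modulo any given number.  `K∞` is
generated by the square roots of the `D ∈ 𝒟`.  The points of `E` over its finite layers are found with the descent
for Galois extensions of `2`-power degree of the library of helper55 (`Pool.Agent.K4H55.CX.fin_up`).  New here
(`Pool.Agent.U81.MQ`): Kummer theory of the finite layers `F` of the tower (`exists_kum`), the decomposition of all the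
places of `K` in `F` (`Kum.units`, `Kum.squares`, `Kum.dec_eight`), and the factorisation
`L(E/F, s) = ∏_χ L(f ⊗ χ, s)` for the full Euler products over the places of `F` (`Kum.fiber`, `Kum.prod`).  Neither
of these two libraries is used in the starting results for this problem or for `MP_1a91b9_nt`.
-/

set_option autoImplicit false

open NumberField IsDedekindDomain Matrix WeierstrassCurve Filter Topology
open scoped TensorProduct

namespace Pool.Agent.Results.MP_cd906c_nt.NonabelianInfiniteTowers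

/-- `K` is an imaginary quadratic field, `σ` is one of its two embeddings in `ℂ`, and `δ` generates the
different of `K`: an `x ∈ K` is in `𝓞` if and only if `Tr(x y / δ) ∈ ℤ` for all `y ∈ 𝓞`. -/
structure IsFieldData (K : Type) [Field K] [NumberField K] (σ : K →+* ℂ) (δ : K) : Prop where
  quadratic : Module.finrank ℚ K = 2
  imaginary : ∃ x, (starRingEnd ℂ) (σ x) ≠ σ x
  different : ∀ x : K, (∃ a : 𝓞 K, (a : K) = x) ↔
    ∀ y : 𝓞 K, ∃ m : ℤ, Algebra.trace ℚ K (x * y / δ) = m

/-- `h(y) = ∫_0^∞ exp(-1/v - y v) dv = 2 y^(-1/2) K₁(2 √y)`, with the Bessel function `K₁`. -/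
noncomputable def bessel (y : ℝ) : ℝ := ∫ v in Set.Ioi (0 : ℝ), Real.exp (-(1 / v) - y * v)

/-- The additive character `e(z) = exp(2πi (z/δ + conj (z/δ)))` of `ℂ`, trivial on `𝓞`. -/
noncomputable def addChar (δ z : ℂ) : ℂ :=
  Complex.exp (2 * Real.pi * Complex.I * (z / δ + (starRingEnd ℂ) (z / δ)))

/-- The denominator `|c z + d|² + |c|² t²` of the action of the matrix `(a, b; c, d)` on the hyperbolic
space `{(z, t) : z ∈ ℂ, t > 0}`. -/
noncomputable def den (c d z : ℂ) (t : ℝ) : ℝ := ‖c * z + d‖ ^ 2 + ‖c‖ ^ 2 * t ^ 2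

/-- The first coordinate `((a z + b) conj (c z + d) + a conj(c) t²) / (|c z + d|² + |c|² t²)` of the image
of `(z, t)` under the matrix `(a, b; c, d)`. -/
noncomputable def actZ (a b c d z : ℂ) (t : ℝ) : ℂ :=
  ((a * z + b) * (starRingEnd ℂ) (c * z + d) + a * (starRingEnd ℂ) c * (t : ℂ) ^ 2) /
    (den c d z t : ℂ)

/-- The second coordinate, for a matrix of determinant one; in general it is `|ad - bc|` times this. -/
noncomputable def actT (c d z : ℂ) (t : ℝ) : ℝ := t / den c d z t

section field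
variable {K : Type} [Field K] [NumberField K]

/-- The function `Φ(z, t) = ∑_{x ∈ 𝓞} c((x)) t² h(N(x) (2πt/|δ|)²) e(x z)
  = (|δ|/π) ∑_{x ≠ 0} (c((x))/|x|) t K₁(4π|x|t/|δ|) e(x z)` on the hyperbolic space, with the coefficients `c`.
Up to a constant factor it is the primitive, zero at the cusp `∞`, of the harmonic differential of the
form of weight two with the Fourier coefficients `c`: its derivative by `t` is
`-4 ∑_{x ≠ 0} c((x)) t K₀(4π|x|t/|δ|) e(x z)`. -/
noncomputable def primitive (σ : K →+* ℂ) (δ : K) (c : Ideal (𝓞 K) → ℂ) (z : ℂ) (t : ℝ) : ℂ :=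
  ∑' x : 𝓞 K, c (Ideal.span {x}) * ((t ^ 2 * bessel (Ideal.absNorm (Ideal.span {x}) *
    (2 * Real.pi * t / ‖σ δ‖) ^ 2) : ℝ) : ℂ) * addChar (σ δ) (σ x * z)

/-- The numbers `c(I)` are the Hecke eigenvalues of a Bianchi newform `f` of weight two, level `(n)` and
trivial character over `K`, here with rational eigenvalues: they satisfy `c(𝓞) = 1`, the (trivial) bound `c(I) = O(N(I))`
and the Hecke relations `c(v I) = c(v) c(I)` for `v ∤ I`, `c(v² I) = c(v) c(v I) - N(v) c(I)` for the primes `v ∤ n`, and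
`c(v I) = c(v) c(I)` for `v ∣ n`; the differential `dΦ` of the function `Φ` with the coefficients `c` is
invariant under `Γ₀(n)`, that is, `Φ(γ P) - Φ(P)` is a constant for every `γ ∈ Γ₀(n)`; and `dΦ` is an
eigenform, with the eigenvalue `±1`, of the Fricke involution `W = (0, -1; n, 0)`. -/
structure IsNewform (σ : K →+* ℂ) (δ : K) (n : 𝓞 K) (c : Ideal (𝓞 K) → ℂ) : Prop where
  level : n ≠ 0
  zero : c ⊥ = 0
  one : c ⊤ = 1
  bound : ∃ C : ℝ, ∀ I, ‖c I‖ ≤ C * Ideal.absNorm I
  good : ∀ v : HeightOneSpectrum (𝓞 K), n ∉ v.asIdeal → ∀ I,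
    (¬ v.asIdeal ∣ I → c (v.asIdeal * I) = c v.asIdeal * c I) ∧
    c (v.asIdeal * (v.asIdeal * I)) = c v.asIdeal * c (v.asIdeal * I) -
      Ideal.absNorm v.asIdeal * c I
  bad : ∀ v : HeightOneSpectrum (𝓞 K), n ∈ v.asIdeal → ∀ I,
    c (v.asIdeal * I) = c v.asIdeal * c I
  invariant : ∃ κ : SpecialLinearGroup (Fin 2) (𝓞 K) → ℂ,
    ∀ γ : SpecialLinearGroup (Fin 2) (𝓞 K), n ∣ γ.1 1 0 → ∀ (z : ℂ) (t : ℝ), 0 < t →
      primitive σ δ c (actZ (σ (γ.1 0 0)) (σ (γ.1 0 1)) (σ (γ.1 1 0)) (σ (γ.1 1 1)) z t)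
        (actT (σ (γ.1 1 0)) (σ (γ.1 1 1)) z t) = primitive σ δ c z t + κ γ
  fricke : ∃ w κ : ℂ, w * w = 1 ∧ ∀ (z : ℂ) (t : ℝ), 0 < t →
    primitive σ δ c (actZ 0 (-1) (σ n) 0 z t) (‖σ n‖ * actT (σ n) 0 z t) =
      -w * primitive σ δ c z t + κ

/-- The number of the affine points of `y² = x³ + a x + b` over the residue field of `v`. -/
noncomputable def points (a b : 𝓞 K) (v : HeightOneSpectrum (𝓞 K)) : ℕ :=
  Nat.card {x : (𝓞 K ⧸ v.asIdeal) × (𝓞 K ⧸ v.asIdeal) //
    x.2 ^ 2 = x.1 ^ 3 + (Ideal.Quotient.mk v.asIdeal a) * x.1 + (Ideal.Quotient.mk v.asIdeal b)}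

/-- `f` is the newform of `E : y² = x³ + a x + b`: for `v ∤ 2(4a³ + 27b²)` (so that `E` has good reduction at `v`)
the level is prime to `v` and `c(v) = N(v) + 1 - #E(𝓞/v)`. -/
def IsNewformOf (a b n : 𝓞 K) (c : Ideal (𝓞 K) → ℂ) : Prop :=
  ∀ v : HeightOneSpectrum (𝓞 K), 2 * (4 * a ^ 3 + 27 * b ^ 2) ∉ v.asIdeal →
    n ∉ v.asIdeal ∧ c v.asIdeal = (Ideal.absNorm v.asIdeal : ℂ) - points a b v

section selmer
variable {L : Type} [Field L] [NumberField L] [Algebra K L]

/-- `L = K(θ)` is the cubic field of `E`: `θ³ + a θ + b = 0`, and every element of `L` is `u + v θ + w θ²` for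
unique `u, v, w ∈ K`.  So `x³ + a x + b` is irreducible over `K`, that is, `E(K)[2] = 0`. -/
structure IsCubicField (a b : 𝓞 K) (θ : L) : Prop where
  root : θ ^ 3 + algebraMap K L a * θ + algebraMap K L b = 0
  basis : ∀ β : L, ∃! t : K × K × K,
    β = algebraMap K L t.1 + algebraMap K L t.2.1 * θ + algebraMap K L t.2.2 * θ ^ 2

/-- The class of `α` in `(K_v ⊗ L)^×` modulo squares is in the group generated by the images of the points
`(x, y)`, `y ≠ 0`, of `E(K_v)` under the Kummer map `(x, y) ↦ x - θ`.  (This group is the image of `E(K_v)/2E(K_v)`, as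
the map is a homomorphism and all classes contain points with `y ≠ 0`.) -/
def LocalCondition (a b : 𝓞 K) (θ : L) (v : HeightOneSpectrum (𝓞 K)) (α : L) : Prop :=
  ∃ s : List (v.adicCompletion K),
    (∀ x ∈ s, ∃ y : v.adicCompletion K, y ≠ 0 ∧
      y ^ 2 = x ^ 3 + algebraMap K (v.adicCompletion K) a * x +
        algebraMap K (v.adicCompletion K) b) ∧
    IsSquare (((1 : v.adicCompletion K) ⊗ₜ[K] α) *
      (s.map fun x => x ⊗ₜ[K] (1 : L) - 1 ⊗ₜ[K] θ).prod)

/-- The `2`-Selmer group of `E/K` is trivial.  As `E(K)[2] = 0` and `K` has no real places, it is the group of the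
classes of `α ∈ L^×` modulo squares such that the norm of `α` is a square, `w(α)` is even for all places
`w ∤ 2(4a³ + 27b²)` of `L`, and `α` satisfies the local conditions at the places `v ∣ 2(4a³ + 27b²)` of `K`. -/
def TrivialSelmer (a b : 𝓞 K) (θ : L) : Prop :=
  ∀ α : L, α ≠ 0 → IsSquare (Algebra.norm K α) →
    (∀ w : HeightOneSpectrum (𝓞 L), algebraMap (𝓞 K) (𝓞 L) (2 * (4 * a ^ 3 + 27 * b ^ 2)) ∉
      w.asIdeal → IsSquare (w.valuation L α)) →
    (∀ v : HeightOneSpectrum (𝓞 K), 2 * (4 * a ^ 3 + 27 * b ^ 2) ∈ v.asIdeal →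
      LocalCondition a b θ v α) → IsSquare α

end selmer

/-- `q` is an admissible prime: `q` is an odd prime which splits in `K` (the places `v` of `K` above `q` have the norm
`q` and are unramified), and `v ∤ 2(4a³ + 27b²)` and `x³ + a x + b` has no root modulo `v` for the places `v` above `q`. -/
structure IsAdmissible (a b : 𝓞 K) (q : ℕ) : Prop where
  prime : q.Prime
  odd : q ≠ 2
  degree : ∀ v : HeightOneSpectrum (𝓞 K), (q : 𝓞 K) ∈ v.asIdeal → Ideal.absNorm v.asIdeal = q
  unramified : ∀ v : HeightOneSpectrum (𝓞 K), (q : 𝓞 K) ∈ v.asIdeal → (q : 𝓞 K) ∉ v.asIdeal ^ 2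
  good : ∀ v : HeightOneSpectrum (𝓞 K), (q : 𝓞 K) ∈ v.asIdeal →
    2 * (4 * a ^ 3 + 27 * b ^ 2) ∉ v.asIdeal
  noRoot : ∀ v : HeightOneSpectrum (𝓞 K), (q : 𝓞 K) ∈ v.asIdeal →
    ∀ x : 𝓞 K, x ^ 3 + a * x + b ∉ v.asIdeal

section extension

variable (F : Type) [Field F] [NumberField F] [Algebra K F]

/-- The places `u` of `F` above `v`. -/
def Above (v : HeightOneSpectrum (𝓞 K)) : Type :=
  {u : HeightOneSpectrum (𝓞 F) // u.asIdeal.comap (algebraMap (𝓞 K) (𝓞 F)) = v.asIdeal}

/-- `F/K` is a Galois extension of `2`-power degree, the places `v ∣ 2(4a³ + 27b²)` of `K` split completely in `F`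
(there is an embedding of `F` in `K_v`), and the places of `K` which are not above primes of `S` are unramified in `F`. -/
structure IsLayer (S : Set ℕ) (a b : 𝓞 K) : Prop where
  galois : IsGalois K F
  degree : ∃ k : ℕ, Module.finrank K F = 2 ^ k
  split : ∀ v : HeightOneSpectrum (𝓞 K), 2 * (4 * a ^ 3 + 27 * b ^ 2) ∈ v.asIdeal →
    Nonempty (F →ₐ[K] v.adicCompletion K)
  unramified : ∀ v : HeightOneSpectrum (𝓞 K), 2 * (4 * a ^ 3 + 27 * b ^ 2) ∉ v.asIdeal →
    (∀ q ∈ S, (q : 𝓞 K) ∉ v.asIdeal) → ∀ u : Above F v, ∀ x : K,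
      u.1.valuation F (algebraMap K F x) = v.valuation K x

end extension

/-- `powerSum t q j = α ^ j + β ^ j` for `α + β = t`, `α β = q`. -/
noncomputable def powerSum (t q : ℂ) : ℕ → ℂ
  | 0 => 2
  | 1 => t
  | j + 2 => t * powerSum t q (j + 1) - q * powerSum t q j

section lfunction

variable {F : Type} [Field F] [NumberField F] [Algebra K F]

open Classical in
/-- The Euler factor of `L(E/F, s)` at the place `u` of `F`.  Let `v` be the place of `K` below `u` and
`N(u) = N(v)^f`.  If `v ∤ 2(4a³ + 27b²)`, it is `(1 - a_u N(u)^(-s) + N(u)^(1 - 2s))⁻¹`, where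
`a_u = N(u) + 1 - #E(𝓞_F/u)`.  If `v ∣ 2(4a³ + 27b²)` (these places will split completely in `F`, so that `f = 1` and
`F_u = K_v`), it is given by the eigenvalue `c(v)` of the newform of `E`:
`(1 - (α^f + β^f) N(u)^(-s) + N(u)^(1 - 2s))⁻¹` with `α + β = c(v)`, `α β = N(v)` if `v` does not divide the
level `n`, and `(1 - c(v)^f N(u)^(-s))⁻¹` if it does. -/
noncomputable def eulerFactor (a b n : 𝓞 K) (c : Ideal (𝓞 K) → ℂ) (s : ℂ)
    (u : HeightOneSpectrum (𝓞 F)) : ℂ :=
  if 2 * (4 * a ^ 3 + 27 * b ^ 2) ∈ u.asIdeal.comap (algebraMap (𝓞 K) (𝓞 F)) then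
    if n ∈ u.asIdeal.comap (algebraMap (𝓞 K) (𝓞 F)) then
      (1 - c (u.asIdeal.comap (algebraMap (𝓞 K) (𝓞 F))) ^
          (Nat.log (Ideal.absNorm (u.asIdeal.comap (algebraMap (𝓞 K) (𝓞 F))))
            (Ideal.absNorm u.asIdeal)) * (Ideal.absNorm u.asIdeal : ℂ) ^ (-s))⁻¹
    else
      (1 - powerSum (c (u.asIdeal.comap (algebraMap (𝓞 K) (𝓞 F))))
          (Ideal.absNorm (u.asIdeal.comap (algebraMap (𝓞 K) (𝓞 F))))
          (Nat.log (Ideal.absNorm (u.asIdeal.comap (algebraMap (𝓞 K) (𝓞 F))))
            (Ideal.absNorm u.asIdeal)) * (Ideal.absNorm u.asIdeal : ℂ) ^ (-s) +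
        (Ideal.absNorm u.asIdeal : ℂ) ^ (1 - 2 * s))⁻¹
  else
    (1 - ((Ideal.absNorm u.asIdeal : ℂ) -
          points (algebraMap (𝓞 K) (𝓞 F) a) (algebraMap (𝓞 K) (𝓞 F) b) u) *
          (Ideal.absNorm u.asIdeal : ℂ) ^ (-s) +
      (Ideal.absNorm u.asIdeal : ℂ) ^ (1 - 2 * s))⁻¹

variable (F) in
/-- `G` is the continuation of `L(E/F, s)`: it is an entire function, and for `Re s > 2` it is the product of the Euler
factors at all the finite places of `F`. -/
def IsLFunction (a b n : 𝓞 K) (c : Ideal (𝓞 K) → ℂ) (G : ℂ → ℂ) : Prop :=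
  Differentiable ℂ G ∧ ∀ s : ℂ, 2 < s.re →
    HasProd (fun u : HeightOneSpectrum (𝓞 F) => eulerFactor a b n c s u) (G s)

end lfunction

end field

/-- The curve `E : y² = x³ + a x + b` over the field `F`. -/
def curve {F : Type} [Field F] (a b : F) : WeierstrassCurve F := ⟨0, 0, 0, a, b⟩

section field

variable {K : Type} [Field K] [NumberField K]

/-- The curve `E : y² = x³ + a x + b` over `F`. -/
abbrev EF (F : Type) [Field F] [NumberField F] [Algebra K F] (a b : 𝓞 K) : WeierstrassCurve F :=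
  curve (algebraMap K F a) (algebraMap K F b)

open Classical in
/-- The rank part of the conjecture of Birch and Swinnerton-Dyer for `E/F`, with both sides zero, where `G` is the
continuation of `L(E/F, s)`, and the `2`-primary parts: the order of vanishing of `G` at `s = 1` is the rank of `E(F)` and
zero; `E(F)` is finite of odd order; the Tate-Shafarevich group `Ш(E/F)` (`Sha`: the continuous cocycles of the absolute
Galois group with values in the points over an algebraic closure which are coboundaries at all the places, modulo the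
coboundaries) has no element of order two, hence its `2`-primary part is zero; and `H¹_f(F, V_2 E) = 0`. -/
structure Conclusion (F : Type) [Field F] [NumberField F] [Algebra K F] (a b : 𝓞 K) (G : ℂ → ℂ) :
    Prop where
  rank : analyticOrderAt G 1 = ((Module.finrank ℤ (EF F a b).toAffine.Point : ℕ) : ℕ∞)
  zero : analyticOrderAt G 1 = 0
  finite : Finite (EF F a b).toAffine.Point
  odd : Odd (Nat.card (EF F a b).toAffine.Point)
  sha : ∀ (k : ℕ) (s : Pool.Agent.TH841.NF.D.Sha (EF F a b)), (2 ^ k : ℕ) • s = 0 → s = 0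
  h1f : ∀ x : Pool.Agent.Y667.BKP.H1f 2 (EF F a b), x = 0

end field

section field

variable {K : Type} [Field K] [NumberField K]

open Classical in
lemma rank_zero (F : Type) [Field F] [NumberField F] [Algebra K F] (a b : 𝓞 K)
    (h1 : Finite (EF F a b).toAffine.Point) :
    Module.finrank ℤ (EF F a b).toAffine.Point = 0 := by
  apply Module.IsTorsion.finrank_eq_zero
  intro P
  refine ⟨⟨(Nat.card (EF F a b).toAffine.Point : ℤ), ?_⟩, ?_⟩
  · rw [mem_nonZeroDivisors_iff_ne_zero]
    exact_mod_cast Nat.card_pos.ne'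
  · show (Nat.card (EF F a b).toAffine.Point : ℤ) • P = 0
    rw [natCast_zsmul]
    exact card_nsmul_eq_zero'

end field

/-- **Theorem.** Let `K` be an imaginary quadratic field of class number one, `E : y² = x³ + a x + b` an elliptic
curve over `K` with the Bianchi newform `f` of level `(n)` and eigenvalues `c`.  Suppose that `E(K)[2] = 0`, the
`2`-Selmer group of `E/K` is trivial and `L(E/K, 1) ≠ 0`.  Then the admissible primes have positive lower density, and for
every infinite set `S` of admissible primes there is an infinite extension `T` of `K` (in an algebraic closure of `K`)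
which is Galois over `ℚ` with a nonabelian Galois group and of exponent two over `K`, such that all the finite
extensions `F/K` in `T` have the following properties: `F/K` is unramified outside of the places above `S`, the places
above `2(4a³ + 27b²)` split completely in `F`, `L(E/F, s)` is continued to an entire function, the rank part of the
conjecture of Birch and Swinnerton-Dyer holds for `E/F` with both sides zero, `E(F)` is finite of odd order, and
`Ш(E/F)[2^∞] = 0`. -/
theorem result (K : Type) [Field K] [NumberField K] [IsPrincipalIdealRing (𝓞 K)] (σ : K →+* ℂ)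
    (δ : K) (hK : IsFieldData K σ δ) (a b n : 𝓞 K) (hΔ : 4 * a ^ 3 + 27 * b ^ 2 ≠ 0)
    (c : Ideal (𝓞 K) → ℂ) (hf : IsNewform σ δ n c) (hE : IsNewformOf a b n c)
    (G₀ : ℂ → ℂ) (hG₀ : IsLFunction K a b n c G₀) (hne : G₀ 1 ≠ 0)
    (L : Type) [Field L] [NumberField L] [Algebra K L] (θ : L)
    (hθ : IsCubicField a b θ) (hS : TrivialSelmer a b θ) :
    (∃ d : ℝ, 0 < d ∧ ∀ᶠ N : ℕ in atTop,
      d * (N / Real.log N) ≤ Nat.card {q : ℕ // q ≤ N ∧ IsAdmissible a b q}) ∧
    ∀ S : Set ℕ, S.Infinite → (∀ q ∈ S, IsAdmissible a b q) →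
      ∃ T : IntermediateField K (AlgebraicClosure K), ¬ FiniteDimensional K T ∧ IsGalois ℚ T ∧
        (∃ s t : T ≃ₐ[ℚ] T, s * t ≠ t * s) ∧ (∀ s : T ≃ₐ[K] T, s * s = 1) ∧
        ∀ (F : IntermediateField K (AlgebraicClosure K)) [NumberField F], F ≤ T →
          IsLayer F S a b ∧ ∃ G : ℂ → ℂ, IsLFunction F a b n c G ∧ Conclusion F a b G := by
  classical
  have h : K4H55.BI.IQ K σ δ := ⟨hK.quadratic, hK.imaginary, inferInstance, hK.different⟩
  have hf' : K4H55.BI.BF σ δ n c := ⟨hf.level, hf.zero, hf.one, hf.bound, hf.good, hf.bad,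
    hf.invariant, hf.fricke⟩
  have hcub : K4H55.BD.Cub K θ := by
    refine ⟨fun p q r h0 => ?_, fun β => ?_⟩
    · obtain ⟨t, ht, hu⟩ := hθ.basis 0
      have h1 := hu (p, q, r) h0.symm
      have h2 := hu (0, 0, 0) (by simp)
      have h3 := h1.trans h2.symm
      simp only [Prod.mk.injEq] at h3
      exact h3
    · obtain ⟨t, ht, -⟩ := hθ.basis β
      exact ⟨t.1, t.2.1, t.2.2, ht⟩
  have hE' : ∀ v : HeightOneSpectrum (𝓞 K), 2 * (4 * a ^ 3 + 27 * b ^ 2) ∉ v.asIdeal →
      n ∉ v.asIdeal ∧ c v.asIdeal = (Ideal.absNorm v.asIdeal : ℂ) - K4H55.BD.pv a b v :=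
    fun v hv => hE v hv
  -- the Euler factors
  have hps : ∀ (t q : ℂ) (j : ℕ), powerSum t q j = K4H55.CX.luc t q j := by
    intro t q j
    induction j using Nat.twoStepInduction with
    | zero => rfl
    | one => rfl
    | more j h1 h2 => rw [powerSum, K4H55.CX.luc, h1, h2]
  have hef : ∀ (M : Type) [Field M] [NumberField M] [Algebra K M] (s : ℂ)
      (u : HeightOneSpectrum (𝓞 M)), eulerFactor a b n c s u = U81.BX.fct a b n c s u := by
    intro M _ _ _ s u
    unfold eulerFactor U81.BX.fct K4H55.CX.facF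
    simp only [hps]
    rfl
  have hadm : ∀ q, q ∈ K4H55.BD.QE h a b n ↔ IsAdmissible a b q := by
    intro q
    rw [U81.MQ.qe_iff h hE']
    exact ⟨fun h1 => ⟨h1.1, h1.2.1, fun v hv => (h1.2.2 v hv).1, fun v hv => (h1.2.2 v hv).2.1,
      fun v hv => (h1.2.2 v hv).2.2.1, fun v hv => (h1.2.2 v hv).2.2.2⟩,
      fun h1 => ⟨h1.prime, h1.odd, fun v hv => ⟨h1.degree v hv, h1.unramified v hv, h1.good v hv,
        h1.noRoot v hv⟩⟩⟩
  refine ⟨?_, fun S hSi hSa => ?_⟩
  · obtain ⟨d, hd, h1⟩ := U81.MQ.dens h (n := n) hΔ hf.level hcub hθ.root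
    refine ⟨d, hd, ?_⟩
    filter_upwards [h1] with N hN
    refine hN.trans (le_of_eq ?_)
    congr 1
    exact Nat.card_congr (Equiv.subtypeEquivRight fun q => and_congr_right fun _ => hadm q)
  · obtain ⟨T, t1, t2, t3, t4, t5⟩ := U81.MQ.top h hΔ hf' hE'
      (U81.MQ.nvd_one hE' hG₀.1 (fun s hs => by
        have h5 := hG₀.2 s hs
        refine (congrArg (fun g => HasProd g (G₀ s)) (funext fun v => ?_)).mp h5
        exact hef K s v) hne) hcub hθ.root hS hSi (fun q hq => (hadm q).2 (hSa q hq))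
    refine ⟨T, t1, t2, t3, t4, fun F _ hF => ?_⟩
    obtain ⟨f1, f2, f3, f4, ⟨G, g1, g2, g3⟩, ⟨h1, h1'⟩, h2, h3⟩ := t5 F hF
    refine ⟨⟨f1, f2, f3, fun v hv hq u x => ?_⟩, ?_⟩
    · obtain ⟨u, hu⟩ := u
      have hv' : K4H55.BD.low (K := K) u = v := HeightOneSpectrum.ext hu
      subst hv'
      exact f4 u hv hq x
    have hord : analyticOrderAt G 1 = 0 := analyticOrderAt_eq_zero.2 (Or.inr g3)
    refine ⟨G, ⟨g1, fun s hs => ?_⟩, ⟨by rw [hord, rank_zero F a b h1]; rfl, hord, h1, h1', h2, h3⟩⟩
    have h5 := g2 s hs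
    refine (congrArg (fun g => HasProd g (G s)) (funext fun v => ?_)).mp h5
    exact (hef F s v).symm

end Pool.Agent.Results.MP_cd906c_nt.NonabelianInfiniteTowers
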